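import Pool.Agent.H.MP_2d605f_pr.CircInst
import Pool.Agent.H.MP_2d605f_pr.Upper

/-! The implication of Q1 for all `n` outside a middle range of `k`. -/

open Pool.Agent.H.MP_2d605f_pr

namespace Pool.Agent.Results.MP_2d605f_pr.AllRange

/-- For every `n ≥ 2`, both complete graphs on `n` vertices and every `k ≥ 2` such that
`k ≤ n / 3 + 1`, or `n` is even and `k ≤ n / 2 + 1`, or `k ≥ n - 1`: if there is a Markovian
avoidance coupling of `k` walkers, then there is one of `k - 1` walkers. -/
theorem result (n : ℕ) (hn : 2 ≤ n) (loops : Bool) (k : ℕ) (hk : 2 ≤ k)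
    (hr : 3 * k ≤ n + 3 ∨ (Even n ∧ 2 * k ≤ n + 2) ∨ n ≤ k + 1)
    (h : HasMarkovianCoupling loops n k) :
    HasMarkovianCoupling loops n (k - 1) := by
  by_cases h1 : 3 * (k - 1) ≤ n ∨ Even n ∧ 2 * (k - 1) ≤ n
  · cases loops with
    | true => exact coupling_loops (by omega) h1.symm
    | false =>
      rcases h1 with h1 | h1
      · exact coupling_third (by omega) h1
      · exact coupling_noloops' (by omega) (Or.inl h1)
  · exfalso
    have h3 : ¬ 3 * (k - 1) ≤ n := fun h' => h1 (Or.inl h')
    have h4 : n ≤ k + 1 := by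
      rcases hr with hr | hr | hr
      · exact absurd (show 3 * (k - 1) ≤ n by omega) h3
      · exact absurd (Or.inr ⟨hr.1, by omega⟩) h1
      · exact hr
    obtain ⟨S, hS⟩ := h
    by_cases h2 : n ≤ k
    · exact no_coupling_full hS (by rw [Fintype.card_fin]; exact h2) (by rw [Fintype.card_fin]; exact hn)
    · exact no_coupling_pred hS (by rw [Fintype.card_fin]; omega) hk (fun _ => by omega)

end Pool.Agent.Results.MP_2d605f_pr.AllRange
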