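import Pool.Agent.H.MP_2d605f_pr.CircInst

/-! Markovian avoidance couplings of up to `n / 3` walkers on every complete graph. -/

open Pool.Agent.H.MP_2d605f_pr

namespace Pool.Agent.Results.MP_2d605f_pr.AllThirds

/-- For every `n`, both complete graphs on `n` vertices (with and without loops) and every `k ≥ 1`:
if `k ≤ n / 3`, or `n` is even and `k ≤ n / 2`, then there is a Markovian avoidance coupling of `k`
walkers. -/
theorem result (loops : Bool) (n k : ℕ) (hk : 1 ≤ k) (h : 3 * k ≤ n ∨ Even n ∧ 2 * k ≤ n) :
    HasMarkovianCoupling loops n k := by
  cases loops with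
  | true => exact coupling_loops hk h.symm
  | false =>
    rcases h with h | h
    · exact coupling_third hk h
    · exact coupling_noloops' hk (Or.inl h)

end Pool.Agent.Results.MP_2d605f_pr.AllThirds
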